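import Mathlib

set_option autoImplicit false

namespace Pool.Agent.Results.MP_637dc3_nt.GoingUp

open Finset

/-- The set of the integer solutions `(x, y_1, …, y_n)`, `x ≥ 1`, of
`0 < max_{1 ≤ j ≤ n} |x ξ^j - y_j| ≤ x^{-l}`. -/
def Sol (n : ℕ) (ξ l : ℝ) : Set (ℤ × (Fin n → ℤ)) :=
  {p | 1 ≤ p.1 ∧ 0 < (⨆ j : Fin n, |(p.1 : ℝ) * ξ ^ ((j : ℕ) + 1) - (p.2 j : ℝ)|) ∧
      (⨆ j : Fin n, |(p.1 : ℝ) * ξ ^ ((j : ℕ) + 1) - (p.2 j : ℝ)|) ≤ (p.1 : ℝ) ^ (-l)}

/-- The exponent `λ_n(ξ)`: the supremum, in the extended reals, of the real numbers `l` for which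
`0 < max_{1 ≤ j ≤ n} |x ξ^j - y_j| ≤ x^{-l}` has infinitely many integer solutions with
`x ≥ 1`. -/
noncomputable def lam (n : ℕ) (ξ : ℝ) : EReal :=
  ⨆ l ∈ {l : ℝ | (Sol n ξ l).Infinite}, (l : EReal)

/-- Working form: there are solutions with `x` arbitrarily large. -/
def Good (n : ℕ) (ξ l : ℝ) : Prop :=
  ∀ B : ℤ, ∃ (x : ℤ) (y : ℕ → ℤ), B < x ∧ 1 ≤ x ∧
    ∀ j : ℕ, j < n → |(x : ℝ) * ξ ^ (j + 1) - (y j : ℝ)| ≤ (x : ℝ) ^ (-l)

lemma good_of_infinite {n : ℕ} {ξ l : ℝ} (h : (Sol n ξ l).Infinite) :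
    Good n ξ l := by
  classical
  intro B
  by_contra hcon
  push Not at hcon
  apply h
  -- all solutions have first coordinate at most `B`
  set K : ℤ := ⌈|(B : ℝ)| * (max 1 |ξ|) ^ (n + 1) + (|(B : ℝ)| + 1) ^ |l|⌉ + 1 with hK
  have hfin : ((Set.Icc (1 : ℤ) B) ×ˢ
      (Set.pi Set.univ (fun _ : Fin n => Set.Icc (-K) K)) : Set (ℤ × (Fin n → ℤ))).Finite :=
    (Set.finite_Icc _ _).prod (Set.Finite.pi fun _ => Set.finite_Icc _ _)
  refine hfin.subset ?_
  rintro ⟨x, y⟩ ⟨hx1, -, hle⟩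
  simp only at hx1 hle
  have hall : ∀ j : Fin n, |(x : ℝ) * ξ ^ ((j : ℕ) + 1) - (y j : ℝ)| ≤ (x : ℝ) ^ (-l) := fun j =>
    (le_ciSup (f := fun j : Fin n => |(x : ℝ) * ξ ^ ((j : ℕ) + 1) - (y j : ℝ)|)
      (Set.finite_range _).bddAbove j).trans hle
  have hxB : x ≤ B := by
    by_contra hlt
    push Not at hlt
    obtain ⟨j, hj, hj2⟩ := hcon x (fun j => if h : j < n then y ⟨j, h⟩ else 0) hlt hx1
    rw [dif_pos hj] at hj2
    exact absurd (hall ⟨j, hj⟩) (not_le.2 hj2)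
  refine ⟨⟨hx1, hxB⟩, ?_⟩
  intro j _
  have hxr : (1 : ℝ) ≤ x := by exact_mod_cast hx1
  have hxBr : (x : ℝ) ≤ |(B : ℝ)| := (by exact_mod_cast hxB : (x : ℝ) ≤ B).trans (le_abs_self _)
  have h1 : (x : ℝ) ^ (-l) ≤ (|(B : ℝ)| + 1) ^ |l| := by
    calc (x : ℝ) ^ (-l) ≤ (x : ℝ) ^ |l| :=
          Real.rpow_le_rpow_of_exponent_le hxr (neg_le_abs l)
      _ ≤ _ := Real.rpow_le_rpow (by linarith) (by linarith) (abs_nonneg _)
  have h2 : |(x : ℝ) * ξ ^ ((j : ℕ) + 1)| ≤ |(B : ℝ)| * (max 1 |ξ|) ^ (n + 1) := by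
    rw [abs_mul, abs_pow]
    have hm : (1 : ℝ) ≤ max 1 |ξ| := le_max_left _ _
    have h3 : |ξ| ^ ((j : ℕ) + 1) ≤ (max 1 |ξ|) ^ (n + 1) :=
      (pow_le_pow_left₀ (abs_nonneg _) (le_max_right _ _) _).trans
        (pow_le_pow_right₀ hm (by have := j.2; omega))
    have h4 : |(x : ℝ)| ≤ |(B : ℝ)| := by rw [abs_of_nonneg (by linarith)]; exact hxBr
    exact mul_le_mul h4 h3 (by positivity) (abs_nonneg _)
  have h5 : |(y j : ℝ)| ≤ K := by
    have h6 : |(y j : ℝ)| ≤ |(x : ℝ) * ξ ^ ((j : ℕ) + 1)| +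
        |(x : ℝ) * ξ ^ ((j : ℕ) + 1) - (y j : ℝ)| := by
      have := abs_sub_abs_le_abs_sub (y j : ℝ) ((x : ℝ) * ξ ^ ((j : ℕ) + 1))
      rw [abs_sub_comm] at this
      linarith
    have h7 := hall j
    have h8 : |(B : ℝ)| * (max 1 |ξ|) ^ (n + 1) + (|(B : ℝ)| + 1) ^ |l| ≤ (K : ℝ) := by
      rw [hK]; push_cast
      exact (Int.le_ceil _).trans (by linarith)
    linarith
  have h9 : |y j| ≤ K := by exact_mod_cast h5
  exact abs_le.1 h9

lemma infinite_of_good {n : ℕ} (hn : 1 ≤ n) {ξ l : ℝ} (hξ : Irrational ξ) (h : Good n ξ l) :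
    (Sol n ξ l).Infinite := by
  classical
  intro hfin
  obtain ⟨B, hB⟩ := (hfin.image Prod.fst).bddAbove
  obtain ⟨x, y, hx, hx1, hall⟩ := h B
  have hne : Nonempty (Fin n) := ⟨⟨0, hn⟩⟩
  have hmem : (x, fun j : Fin n => y j) ∈ Sol n ξ l := by
    refine ⟨hx1, ?_, ?_⟩
    · have h0 : 0 < |(x : ℝ) * ξ ^ (0 + 1) - (y 0 : ℝ)| := by
        rw [abs_pos, zero_add, pow_one, sub_ne_zero]
        have hir : Irrational ((x : ℝ) * ξ) := hξ.intCast_mul (by omega)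
        exact hir.ne_int (y 0)
      exact h0.trans_le (le_ciSup
        (f := fun j : Fin n => |(x : ℝ) * ξ ^ ((j : ℕ) + 1) - ((y j : ℤ) : ℝ)|)
        (Set.finite_range _).bddAbove ⟨0, hn⟩)
    · exact ciSup_le fun j => hall j j.2
  have := hB ⟨_, hmem, rfl⟩
  simp only at this
  omega

/-- Goodness is monotone in the exponent. -/
lemma Good.mono {n : ℕ} {ξ l l' : ℝ} (h : Good n ξ l) (hl : l' ≤ l) : Good n ξ l' := by
  intro B
  obtain ⟨x, y, hx, hx1, hall⟩ := h B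
  refine ⟨x, y, hx, hx1, fun j hj => (hall j hj).trans ?_⟩
  exact Real.rpow_le_rpow_of_exponent_le (by exact_mod_cast hx1) (by linarith)

/-- Every nonpositive exponent is good. -/
lemma good_nonpos (n : ℕ) (ξ : ℝ) {l : ℝ} (hl : l ≤ 0) : Good n ξ l := by
  intro B
  refine ⟨max B 0 + 1, fun j => round (((max B 0 + 1 : ℤ) : ℝ) * ξ ^ (j + 1)), ?_, ?_, ?_⟩
  · exact (le_max_left B 0).trans_lt (lt_add_one _)
  · have := le_max_right B 0; omega
  · intro j _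
    refine (abs_sub_round _).trans ?_
    have h1 : (1 : ℝ) ≤ ((max B 0 + 1 : ℤ) : ℝ) := by
      have := le_max_right B 0
      exact_mod_cast (by omega : (1 : ℤ) ≤ max B 0 + 1)
    have := Real.one_le_rpow h1 (by linarith : 0 ≤ -l)
    linarith

/-- The extension identity and its estimate. -/
lemma ext_bound (n d : ℕ) (hd : d ≤ n) (ξ : ℝ) (w a : ℕ → ℤ)
    (hrel : ∑ i ∈ range (d + 1), a i * w i = 0) (e H : ℝ) (he : 0 ≤ e) (hH0 : 0 ≤ H)
    (herr : ∀ i ≤ n, |(w 0 : ℝ) * ξ ^ i - (w i : ℝ)| ≤ e)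
    (hH : ∀ i ≤ d, |(a i : ℝ)| ≤ H) :
    |(a d : ℝ) * (w 0 : ℝ) * ξ ^ (n + 1) + ∑ i ∈ range d, (a i : ℝ) * (w (n + 1 - d + i) : ℝ)| ≤
      ((2 * n + 1) * (max 1 |ξ|) ^ (n + 1)) * (H * e) := by
  have hrel' : ∑ i ∈ range (d + 1), (a i : ℝ) * (w i : ℝ) = 0 := by exact_mod_cast hrel
  have hid : (a d : ℝ) * (w 0 : ℝ) * ξ ^ (n + 1) +
      ∑ i ∈ range d, (a i : ℝ) * (w (n + 1 - d + i) : ℝ) =
      ξ ^ (n + 1 - d) * (∑ i ∈ range (d + 1), (a i : ℝ) * ((w 0 : ℝ) * ξ ^ i - (w i : ℝ))) -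
      ∑ i ∈ range d, (a i : ℝ) * ((w 0 : ℝ) * ξ ^ (n + 1 - d + i) - (w (n + 1 - d + i) : ℝ)) := by
    have h1 : ∑ i ∈ range (d + 1), (a i : ℝ) * ((w 0 : ℝ) * ξ ^ i - (w i : ℝ)) =
        ∑ i ∈ range (d + 1), (a i : ℝ) * ((w 0 : ℝ) * ξ ^ i) := by
      have : ∑ i ∈ range (d + 1), (a i : ℝ) * ((w 0 : ℝ) * ξ ^ i - (w i : ℝ)) =
        ∑ i ∈ range (d + 1), (a i : ℝ) * ((w 0 : ℝ) * ξ ^ i) -
          ∑ i ∈ range (d + 1), (a i : ℝ) * (w i : ℝ) := by
        rw [← Finset.sum_sub_distrib]; exact Finset.sum_congr rfl fun i _ => by ring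
      rw [this, hrel', sub_zero]
    rw [h1, Finset.sum_range_succ, mul_add, Finset.mul_sum]
    have h2 : ξ ^ (n + 1 - d) * ((a d : ℝ) * ((w 0 : ℝ) * ξ ^ d)) =
        (a d : ℝ) * (w 0 : ℝ) * ξ ^ (n + 1) := by
      have : ξ ^ (n + 1) = ξ ^ (n + 1 - d) * ξ ^ d := by
        rw [← pow_add]; congr 1; omega
      rw [this]; ring
    rw [h2]
    have h3 : ∑ i ∈ range d, (a i : ℝ) *
        ((w 0 : ℝ) * ξ ^ (n + 1 - d + i) - (w (n + 1 - d + i) : ℝ)) =
        ∑ i ∈ range d, ξ ^ (n + 1 - d) * ((a i : ℝ) * ((w 0 : ℝ) * ξ ^ i)) -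
          ∑ i ∈ range d, (a i : ℝ) * (w (n + 1 - d + i) : ℝ) := by
      rw [← Finset.sum_sub_distrib]
      refine Finset.sum_congr rfl fun i _ => ?_
      rw [pow_add]; ring
    rw [h3]; ring
  rw [hid]
  set M : ℝ := (max 1 |ξ|) ^ (n + 1) with hM
  have hm1 : (1 : ℝ) ≤ max 1 |ξ| := le_max_left _ _
  have hM1 : 1 ≤ M := one_le_pow₀ hm1
  have hHe : 0 ≤ H * e := mul_nonneg hH0 he
  have hb1 : |∑ i ∈ range (d + 1), (a i : ℝ) * ((w 0 : ℝ) * ξ ^ i - (w i : ℝ))| ≤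
      (n + 1) * (H * e) := by
    calc _ ≤ ∑ i ∈ range (d + 1), |(a i : ℝ) * ((w 0 : ℝ) * ξ ^ i - (w i : ℝ))| :=
          Finset.abs_sum_le_sum_abs _ _
      _ ≤ ∑ i ∈ range (d + 1), H * e := by
          refine Finset.sum_le_sum fun i hi => ?_
          rw [abs_mul]
          have hi' := Finset.mem_range.1 hi
          exact mul_le_mul (hH i (by omega)) (herr i (by omega)) (abs_nonneg _) hH0
      _ = ((d : ℝ) + 1) * (H * e) := by simp
      _ ≤ _ := by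
          have : (d : ℝ) ≤ n := by exact_mod_cast hd
          nlinarith
  have hb2 : |∑ i ∈ range d, (a i : ℝ) *
      ((w 0 : ℝ) * ξ ^ (n + 1 - d + i) - (w (n + 1 - d + i) : ℝ))| ≤ n * (H * e) := by
    calc _ ≤ ∑ i ∈ range d, |(a i : ℝ) *
        ((w 0 : ℝ) * ξ ^ (n + 1 - d + i) - (w (n + 1 - d + i) : ℝ))| :=
          Finset.abs_sum_le_sum_abs _ _
      _ ≤ ∑ i ∈ range d, H * e := by
          refine Finset.sum_le_sum fun i hi => ?_
          rw [abs_mul]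
          have hi' := Finset.mem_range.1 hi
          exact mul_le_mul (hH i (by omega)) (herr _ (by omega)) (abs_nonneg _) hH0
      _ = (d : ℝ) * (H * e) := by simp
      _ ≤ _ := by
          have : (d : ℝ) ≤ n := by exact_mod_cast hd
          nlinarith
  have hb3 : |ξ ^ (n + 1 - d)| ≤ M := by
    rw [abs_pow, hM]
    exact (pow_le_pow_left₀ (abs_nonneg _) (le_max_right _ _) _).trans
        (pow_le_pow_right₀ hm1 (by omega))
  calc _ ≤ |ξ ^ (n + 1 - d) * ∑ i ∈ range (d + 1), (a i : ℝ) * ((w 0 : ℝ) * ξ ^ i - (w i : ℝ))| +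
      |∑ i ∈ range d, (a i : ℝ) *
      ((w 0 : ℝ) * ξ ^ (n + 1 - d + i) - (w (n + 1 - d + i) : ℝ))| := abs_sub _ _
    _ ≤ M * ((n + 1) * (H * e)) + n * (H * e) := by
        rw [abs_mul]
        exact add_le_add (mul_le_mul hb3 hb1 (abs_nonneg _) (by linarith)) hb2
    _ ≤ _ := by
        have h0 : 0 ≤ (n : ℝ) * (H * e) := by positivity
        nlinarith

section

attribute [local instance] Matrix.seminormedAddCommGroup

/-- Siegel's lemma in the form used here. -/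
lemma siegel (n : ℕ) (hn : 1 ≤ n) (w : ℕ → ℤ) (C : ℝ) (hC : 1 ≤ C)
    (hw : ∀ i ≤ n, |(w i : ℝ)| ≤ C) (hw0 : w 0 ≠ 0) :
    ∃ (d : ℕ) (a : ℕ → ℤ), d ≤ n ∧ 1 ≤ d ∧ a d ≠ 0 ∧ ∑ i ∈ range (d + 1), a i * w i = 0 ∧
      ∀ i ≤ d, |(a i : ℝ)| ≤ ((n + 1) * C) ^ ((1 : ℝ) / n) := by
  classical
  let A : Matrix (Fin 1) (Fin (n + 1)) ℤ := fun _ i => w i
  obtain ⟨t, ht0, hAt, htn⟩ := Int.Matrix.exists_ne_zero_int_vec_norm_le A
    (by simp; omega) (by simp)
  have hAn : ‖A‖ ≤ C := by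
    refine (Matrix.norm_le_iff (by linarith)).2 fun i j => ?_
    rw [Int.norm_eq_abs]
    exact hw j (by have := j.2; omega)
  have htb : ∀ i : Fin (n + 1), |(t i : ℝ)| ≤ ((n + 1) * C) ^ ((1 : ℝ) / n) := by
    intro i
    have h1 : ‖t i‖ ≤ ‖t‖ := norm_le_pi_norm t i
    rw [Int.norm_eq_abs] at h1
    refine h1.trans (htn.trans ?_)
    have h2 : ((Fintype.card (Fin 1) : ℝ) / ((Fintype.card (Fin (n + 1)) : ℝ) -
        (Fintype.card (Fin 1) : ℝ))) = (1 : ℝ) / n := by simp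
    rw [h2]
    refine Real.rpow_le_rpow (by positivity) ?_ (by positivity)
    have h3 : max 1 ‖A‖ ≤ C := max_le hC hAn
    have h4 : (Fintype.card (Fin (n + 1)) : ℝ) = n + 1 := by simp
    rw [h4]
    exact mul_le_mul_of_nonneg_left h3 (by positivity)
  -- the relation
  let a : ℕ → ℤ := fun i => if h : i < n + 1 then t ⟨i, h⟩ else 0
  have ha : ∀ i (h : i < n + 1), a i = t ⟨i, h⟩ := fun i h => dif_pos h
  have hsum : ∑ i ∈ range (n + 1), a i * w i = 0 := by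
    have h0 := congrFun hAt 0
    simp only [Matrix.mulVec, dotProduct, Pi.zero_apply] at h0
    rw [Finset.sum_range]
    rw [← h0]
    refine Finset.sum_congr rfl fun i _ => ?_
    rw [ha i i.2, mul_comm]
  -- the top index
  have hex : ∃ i ∈ range (n + 1), a i ≠ 0 := by
    by_contra hcon
    push Not at hcon
    apply ht0
    funext i
    have := hcon i (Finset.mem_range.2 i.2)
    rw [ha i i.2] at this
    exact this
  obtain ⟨i0, hi0, hai0⟩ := hex
  let S := (range (n + 1)).filter (fun i => a i ≠ 0)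
  have hS : S.Nonempty := ⟨i0, Finset.mem_filter.2 ⟨hi0, hai0⟩⟩
  set d := S.max' hS with hd
  have hdS : d ∈ S := Finset.max'_mem _ _
  obtain ⟨hd1, hd2⟩ := Finset.mem_filter.1 hdS
  have hd1' := Finset.mem_range.1 hd1
  have htop : ∀ i, d < i → i < n + 1 → a i = 0 := by
    intro i hi hin
    by_contra hne
    have := Finset.le_max' S i (Finset.mem_filter.2 ⟨Finset.mem_range.2 hin, hne⟩)
    omega
  have hsum' : ∑ i ∈ range (d + 1), a i * w i = 0 := by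
    rw [← hsum]
    refine Finset.sum_subset (Finset.range_subset_range.2 (by omega)) ?_
    intro i hi hi2
    rw [Finset.mem_range] at hi hi2
    rw [htop i (by omega) hi, zero_mul]
  refine ⟨d, a, by omega, ?_, hd2, hsum', ?_⟩
  · by_contra hlt
    have h0 : d = 0 := by omega
    rw [h0] at hsum' hd2
    simp only [zero_add, Finset.sum_range_one] at hsum'
    rcases mul_eq_zero.1 hsum' with h | h
    · exact hd2 h
    · exact hw0 h
  · intro i hi
    rw [ha i (by omega)]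
    exact htb _

end

/-- The one-step inequality: `(n+1) λ_{n+1} ≥ n λ_n - 1`. -/
lemma step {n : ℕ} (hn : 1 ≤ n) {ξ l μ : ℝ} (hμ : μ * (n + 1) < n * l - 1)
    (h : Good n ξ l) : Good (n + 1) ξ μ := by
  rcases le_or_gt μ 0 with hμ0 | hμ0
  · exact good_nonpos _ _ hμ0
  have hnr : (1 : ℝ) ≤ n := by exact_mod_cast hn
  have hl0 : 0 < l := by
    by_contra hl
    push Not at hl
    have : (n : ℝ) * l ≤ 0 := mul_nonpos_of_nonneg_of_nonpos (by linarith) hl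
    nlinarith
  intro B
  set M : ℝ := (max 1 |ξ|) ^ (n + 1) with hM
  have hm1 : (1 : ℝ) ≤ max 1 |ξ| := le_max_left _ _
  have hM1 : 1 ≤ M := one_le_pow₀ hm1
  set D : ℝ := (2 * n + 1) * M with hD
  have hD1 : 1 ≤ D := by rw [hD]; nlinarith
  set C : ℝ := (n + 1) * (M + 1) with hC
  have hC1 : 1 ≤ C := by rw [hC]; nlinarith
  set κ : ℝ := l - μ - (1 + μ) / n with hκ
  have hκ0 : 0 < κ := by
    have : κ * n = n * l - n * μ - (1 + μ) := by
      rw [hκ]; field_simp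
    have h2 : 0 < κ * n := by rw [this]; linarith
    exact pos_of_mul_pos_left h2 (by linarith)
  -- choose `x` large
  set G : ℝ := D * C ^ ((1 + μ) / n) with hG
  have hG0 : 0 < G := by positivity
  obtain ⟨x, y, hx, hx1, hall⟩ := h (max B ⌈G ^ (1 / κ)⌉)
  have hxB : B < x := (le_max_left _ _).trans_lt hx
  have hxr : (1 : ℝ) ≤ x := by exact_mod_cast hx1
  have hx0 : (0 : ℝ) < x := by linarith
  have hxG : G ≤ (x : ℝ) ^ κ := by
    have h1 : G ^ (1 / κ) ≤ x := by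
      have h2 : ⌈G ^ (1 / κ)⌉ ≤ x := ((le_max_right _ _).trans_lt hx).le
      exact (Int.le_ceil _).trans (by exact_mod_cast h2)
    calc G = (G ^ (1 / κ)) ^ κ := by
          rw [← Real.rpow_mul hG0.le, one_div, inv_mul_cancel₀ hκ0.ne', Real.rpow_one]
      _ ≤ _ := Real.rpow_le_rpow (by positivity) h1 hκ0.le
  -- the integer vector
  let w : ℕ → ℤ := fun i => if i = 0 then x else y (i - 1)
  have hw0 : w 0 = x := rfl
  set e : ℝ := (x : ℝ) ^ (-l) with he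
  have he0 : 0 < e := by positivity
  have he1 : e ≤ 1 := Real.rpow_le_one_of_one_le_of_nonpos hxr (by linarith)
  have herr : ∀ i ≤ n, |(w 0 : ℝ) * ξ ^ i - (w i : ℝ)| ≤ e := by
    intro i hi
    rcases Nat.eq_zero_or_pos i with rfl | hpos
    · simp [w, he0.le]
    · obtain ⟨j, rfl⟩ : ∃ j, i = j + 1 := ⟨i - 1, by omega⟩
      have := hall j (by omega)
      simpa [w] using this
  have hwC : ∀ i ≤ n, |(w i : ℝ)| ≤ (M + 1) * x := by
    intro i hi
    have h1 := herr i hi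
    have h2 : |(w 0 : ℝ) * ξ ^ i| ≤ x * M := by
      rw [hw0, abs_mul, abs_pow, abs_of_pos hx0]
      refine mul_le_mul_of_nonneg_left ?_ hx0.le
      rw [hM]
      exact (pow_le_pow_left₀ (abs_nonneg _) (le_max_right _ _) _).trans
        (pow_le_pow_right₀ hm1 (by omega))
    have h3 : |(w i : ℝ)| ≤ |(w 0 : ℝ) * ξ ^ i| + |(w 0 : ℝ) * ξ ^ i - (w i : ℝ)| := by
      have := abs_sub_abs_le_abs_sub (w i : ℝ) ((w 0 : ℝ) * ξ ^ i)
      rw [abs_sub_comm] at this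
      linarith
    nlinarith
  obtain ⟨d, a, hdn, hd1, had, hrel, hab⟩ := siegel n hn w ((M + 1) * x) (by nlinarith) hwC
    (by rw [hw0]; omega)
  set H : ℝ := ((n + 1) * ((M + 1) * x)) ^ ((1 : ℝ) / n) with hH
  have hHeq : H = (C * x) ^ ((1 : ℝ) / n) := by rw [hH, hC]; congr 1; ring
  have hH1 : 1 ≤ H := by
    rw [hHeq]
    refine Real.one_le_rpow ?_ (by positivity)
    nlinarith
  have hext := ext_bound n d hdn ξ w a hrel e H he0.le (by linarith) herr hab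
  -- the sign of the leading coefficient
  obtain ⟨s, hs, hsa⟩ : ∃ s : ℤ, (s = 1 ∨ s = -1) ∧ s * a d = |a d| := by
    rcases le_total 0 (a d) with h0 | h0
    · exact ⟨1, Or.inl rfl, by rw [one_mul, abs_of_nonneg h0]⟩
    · exact ⟨-1, Or.inr rfl, by rw [neg_one_mul, abs_of_nonpos h0]⟩
  have hsabs : |(s : ℝ)| = 1 := by rcases hs with rfl | rfl <;> simp
  have had1 : 1 ≤ |a d| := Int.one_le_abs had
  -- final estimate
  have hfinal : D * (H * e) ≤ ((|a d| * x : ℤ) : ℝ) ^ (-μ) := by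
    have hz0 : (0 : ℝ) < ((|a d| * x : ℤ) : ℝ) := by
      have : 0 < |a d| * x := by positivity
      exact_mod_cast this
    have hz : ((|a d| * x : ℤ) : ℝ) ≤ H * x := by
      push_cast
      exact mul_le_mul_of_nonneg_right (hab d le_rfl) hx0.le
    have h1 : (H * x) ^ (-μ) ≤ ((|a d| * x : ℤ) : ℝ) ^ (-μ) :=
      Real.rpow_le_rpow_of_nonpos hz0 hz (by linarith)
    refine le_trans ?_ h1
    rw [Real.rpow_neg (by positivity)]
    rw [le_inv_comm₀ (by positivity) (by positivity)]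
    -- `(H x)^μ ≤ (D H e)⁻¹`
    rw [le_inv_comm₀ (by positivity) (by positivity)]
    have hHx : 0 < H * x := by positivity
    rw [le_inv_comm₀ (by positivity) (by positivity), ← one_div, le_div_iff₀ (by positivity)]
    -- `(H x)^μ * (D * (H * e)) ≤ 1`
    have hCx : 0 < C * x := by positivity
    have e1 : (H * x) ^ μ = (C * x) ^ (μ / n) * (x : ℝ) ^ μ := by
      rw [Real.mul_rpow (by linarith) hx0.le, hHeq, ← Real.rpow_mul hCx.le]
      congr 2; ring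
    have e2 : (H * x) ^ μ * (D * (H * e)) =
        D * C ^ ((1 + μ) / n) * (x : ℝ) ^ (-κ) := by
      rw [e1, hHeq, he]
      have e3 : (C * (x : ℝ)) ^ (μ / n) * (C * (x : ℝ)) ^ ((1 : ℝ) / n) =
          C ^ ((1 + μ) / n) * (x : ℝ) ^ ((1 + μ) / n) := by
        rw [← Real.rpow_add hCx, ← Real.mul_rpow (by linarith) hx0.le]
        congr 1; ring
      have e4 : (x : ℝ) ^ ((1 + μ) / n) * (x : ℝ) ^ μ * (x : ℝ) ^ (-l) = (x : ℝ) ^ (-κ) := by
        rw [← Real.rpow_add hx0, ← Real.rpow_add hx0]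
        congr 1; rw [hκ]; ring
      calc (C * (x : ℝ)) ^ (μ / n) * (x : ℝ) ^ μ *
            (D * ((C * (x : ℝ)) ^ ((1 : ℝ) / n) * (x : ℝ) ^ (-l)))
          = D * ((C * (x : ℝ)) ^ (μ / n) * (C * (x : ℝ)) ^ ((1 : ℝ) / n)) *
            ((x : ℝ) ^ μ * (x : ℝ) ^ (-l)) := by ring
        _ = D * (C ^ ((1 + μ) / n) * (x : ℝ) ^ ((1 + μ) / n)) *
            ((x : ℝ) ^ μ * (x : ℝ) ^ (-l)) := by rw [e3]
        _ = D * C ^ ((1 + μ) / n) *
            ((x : ℝ) ^ ((1 + μ) / n) * (x : ℝ) ^ μ * (x : ℝ) ^ (-l)) := by ring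
        _ = _ := by rw [e4]
    rw [e2, ← hG, Real.rpow_neg hx0.le, ← div_eq_mul_inv, div_le_one (by positivity)]
    exact hxG
  refine ⟨|a d| * x, fun j => if j < n then |a d| * w (j + 1) else
    -(s * ∑ i ∈ range d, a i * w (n + 1 - d + i)), ?_, ?_, ?_⟩
  · nlinarith
  · nlinarith
  · intro j hj
    rcases Nat.lt_or_ge j n with hjn | hjn
    · simp only [if_pos hjn]
      refine le_trans ?_ hfinal
      have h1 := herr (j + 1) (by omega)
      have h2 : ((|a d| * x : ℤ) : ℝ) * ξ ^ (j + 1) - ((|a d| * w (j + 1) : ℤ) : ℝ) =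
          ((|a d| : ℤ) : ℝ) * ((w 0 : ℝ) * ξ ^ (j + 1) - (w (j + 1) : ℝ)) := by
        push_cast; rw [hw0]; ring
      rw [h2, abs_mul]
      have h3 : |((|a d| : ℤ) : ℝ)| ≤ H := by
        push_cast; rw [abs_abs]; exact hab d le_rfl
      calc _ ≤ H * e := mul_le_mul h3 h1 (abs_nonneg _) (by linarith)
        _ ≤ D * (H * e) := by
          have : 0 ≤ H * e := by positivity
          nlinarith
    · have hjn' : j = n := by omega
      subst hjn'
      simp only [lt_irrefl, if_false]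
      refine le_trans ?_ hfinal
      have h2 : ((|a d| * x : ℤ) : ℝ) * ξ ^ (j + 1) -
          ((-(s * ∑ i ∈ range d, a i * w (j + 1 - d + i)) : ℤ) : ℝ) =
          (s : ℝ) * ((a d : ℝ) * (w 0 : ℝ) * ξ ^ (j + 1) +
            ∑ i ∈ range d, (a i : ℝ) * (w (j + 1 - d + i) : ℝ)) := by
        rw [← hsa]; push_cast; rw [hw0]; ring
      rw [h2, abs_mul, hsabs, one_mul]
      exact hext

/-- The general inequality at the level of exponents. -/
lemma steps {n : ℕ} (hn : 1 ≤ n) {ξ l : ℝ} (h : Good n ξ l) (m : ℕ) (hm : n ≤ m) :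
    ∀ μ : ℝ, μ * m < n * l - m + n → Good m ξ μ := by
  induction m, hm using Nat.le_induction with
  | base =>
    intro μ hμ
    have hnr : (1 : ℝ) ≤ n := by exact_mod_cast hn
    refine h.mono ?_
    by_contra hlt
    push Not at hlt
    nlinarith
  | succ m hm ih =>
    intro μ hμ
    push_cast at hμ
    have hmr : (1 : ℝ) ≤ m := by exact_mod_cast hn.trans hm
    -- choose an intermediate exponent
    have h1 : μ * (m + 1) + 1 < n * l - m + n := by linarith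
    obtain ⟨t, ht1, ht2⟩ := exists_between h1
    have hgm : Good m ξ (t / m) := ih (t / m) (by rw [div_mul_cancel₀ _ (by linarith)]; exact ht2)
    refine step (hn.trans hm) ?_ hgm
    rw [mul_div_cancel₀ _ (by linarith)]
    linarith

lemma mem_iff {n : ℕ} (hn : 1 ≤ n) {ξ : ℝ} (hξ : Irrational ξ) (l : ℝ) :
    (Sol n ξ l).Infinite ↔ Good n ξ l :=
  ⟨good_of_infinite, infinite_of_good hn hξ⟩

lemma good_of_lt_lam {n : ℕ} (hn : 1 ≤ n) {ξ : ℝ} (hξ : Irrational ξ) {l : ℝ}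
    (h : (l : EReal) < lam n ξ) : Good n ξ l := by
  unfold lam at h
  simp only [lt_iSup_iff] at h
  obtain ⟨l', hl', hlt⟩ := h
  exact ((mem_iff hn hξ l').1 hl').mono (EReal.coe_lt_coe_iff.1 hlt).le

lemma le_lam_of_good {n : ℕ} (hn : 1 ≤ n) {ξ : ℝ} (hξ : Irrational ξ) {l : ℝ}
    (h : Good n ξ l) : (l : EReal) ≤ lam n ξ :=
  le_iSup₂ (f := fun (l : ℝ) (_ : l ∈ {l : ℝ | (Sol n ξ l).Infinite}) => (l : EReal)) l
    ((mem_iff hn hξ l).2 h)

/-- **Schleischitz's inequality**: for all integers `1 ≤ n ≤ m` and every irrational real number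
`ξ`, `λ_m(ξ) ≥ (n λ_n(ξ) - m + n) / m` in the extended reals. -/
theorem result (n m : ℕ) (hn : 1 ≤ n) (hnm : n ≤ m) (ξ : ℝ) (hξ : Irrational ξ) :
    ((n : EReal) * lam n ξ - (m : EReal) + (n : EReal)) / (m : EReal) ≤ lam m ξ := by
  have hnr : (1 : ℝ) ≤ n := by exact_mod_cast hn
  have hmr : (1 : ℝ) ≤ m := by exact_mod_cast hn.trans hnm
  refine EReal.ge_of_forall_gt_iff_ge.1 fun z hz => le_lam_of_good (hn.trans hnm) hξ ?_
  have h0 : (0 : EReal) ≤ lam n ξ := by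
    have := le_lam_of_good hn hξ (good_nonpos n ξ (le_refl (0 : ℝ)))
    simpa using this
  have key : ∀ l : ℝ, (l : EReal) < lam n ξ → z * m < n * l - m + n → Good m ξ z :=
    fun l hl hzl => steps hn (good_of_lt_lam hn hξ hl) m hnm z hzl
  rcases eq_or_ne (lam n ξ) ⊤ with htop | htop
  · refine key ((z * m + m - n) / n + 1) ?_ ?_
    · rw [htop]; exact EReal.coe_lt_top _
    · have : (n : ℝ) * ((z * m + m - n) / n + 1) = z * m + m - n + n := by
        field_simp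
      rw [this]; linarith
  · have hbot : lam n ξ ≠ ⊥ := fun h => by rw [h] at h0; simp at h0
    obtain ⟨r, hr⟩ : ∃ r : ℝ, lam n ξ = (r : EReal) :=
      ⟨(lam n ξ).toReal, (EReal.coe_toReal htop hbot).symm⟩
    rw [hr] at hz key
    have h1 : ((n : EReal) * (r : EReal) - (m : EReal) + (n : EReal)) / (m : EReal) =
        (((n * r - m + n) / m : ℝ) : EReal) := by
      rw [EReal.coe_div, EReal.coe_add, EReal.coe_sub, EReal.coe_mul]
      simp
    rw [h1, EReal.coe_lt_coe_iff, lt_div_iff₀ (by linarith)] at hz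
    have h2 : (z * m + m - n) / n < r := by
      rw [div_lt_iff₀ (by linarith)]; linarith
    obtain ⟨l, hl1, hl2⟩ := exists_between h2
    refine key l (EReal.coe_lt_coe_iff.2 hl2) ?_
    rw [div_lt_iff₀ (by linarith)] at hl1
    linarith

end Pool.Agent.Results.MP_637dc3_nt.GoingUp
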